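import Pool.Agent.H621.NF.Semi
import Pool.Agent.H621.AF.Pub5
import Pool.Agent.H621.AF.Hdg

/-!
# Numerically trivial classes and the form of a polarized variety
-/

open CategoryTheory AlgebraicGeometry Finset Module

set_option linter.unusedSectionVars false

universe u

namespace Pool.Agent.H621.NF

open Pool.Agent.H621.AF
open Pool.Agent.H914 Pool.Agent.H914.VarClass Pool.Agent.H914.VarClass.Obj
  Pool.Agent.H914.WeilCohomology Pool.Agent.H281R3.HT Pool.Agent.W552 Pool.Agent.TH132.A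

variable {k : Type u} [Field k] {𝒱 : VarClass k} {ops : CycleOps 𝒱}
  {W : WeilCohomology.{u, 0} ops} {X U : 𝒱.Obj}

/-- The class is numerically trivial. -/
def NT (W : WeilCohomology.{u, 0} ops) (X : 𝒱.Obj) (x : W.H X) : Prop :=
  IsNumTrivial (W.tr X) (algClasses W X) x

theorem nt_iff {x : W.H X} : NT W X x ↔ ∀ y, AS W X y → W.tr X (x * y) = 0 := by
  constructor
  · intro h y hy
    refine AS.ind (p := fun y => W.tr X (x * y) = 0) (fun j y hy => h j y hy) ?_ hy
    intro a b ha hb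
    rw [mul_add, map_add, ha, hb, add_zero]
  · intro h i e he
    exact h e (AS.of he)

theorem nt_zero : NT W X 0 := fun i e _ => by rw [zero_mul, map_zero]

theorem NT.add {x y : W.H X} (hx : NT W X x) (hy : NT W X y) : NT W X (x + y) :=
  fun i e he => by rw [add_mul, map_add, hx i e he, hy i e he, add_zero]

theorem NT.mul {x y : W.H X} (hx : NT W X x) (hy : AS W X y) : NT W X (x * y) := by
  rw [nt_iff] at hx ⊢
  intro e he
  rw [mul_assoc]
  exact hx _ (hy.mul he)

theorem NT.mul' {x y : W.H X} (hx : NT W X x) (hy : AS W X y) : NT W X (y * x) := by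
  rw [hy.comm]
  exact hx.mul hy

theorem NT.eq_zero (h : HomEqNum W X) {x : W.H X} (hx : NT W X x) (hx' : AS W X x) : x = 0 :=
  homEqNum_iff.1 h x hx' (nt_iff.1 hx)

/-- Positivity on the primitive classes of cycles which are not numerically trivial. -/
def NHp (W : WeilCohomology.{u, 0} ops) (X : 𝒱.Obj) (D : X.Cycles) : Prop :=
  ∀ j, 2 * j ≤ X.dim → ∀ z, X.IsCyc j z → W.cl X (divPow ops D (X.dim - 2 * j + 1) z) = 0 →
    ¬ NT W X (W.cl X z) →
      0 < (-1 : ℚ) ^ j * X.V.degCycle (ops.mul z (divPow ops D (X.dim - 2 * j) z))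

theorem nhp_iff_hodge {D : X.Cycles} (h : HomEqNum W X) :
    NHp W X D ↔ Pool.Agent.H914.HodgeType W X D := by
  constructor
  · intro h1 j hj z hz h2 h3
    exact h1 j hj z hz h2 fun h4 => h3 (h4.eq_zero h (AS.of ⟨z, hz, rfl⟩))
  · intro h1 j hj z hz h2 h3
    exact h1 j hj z hz h2 fun h4 => h3 (h4 ▸ nt_zero)

section form

variable {D : X.Cycles} {f : Module.End W.K (W.H X)}

theorem cl_deg (hD : X.IsCyc 1 D) {j : ℕ} (hj : 2 * j ≤ X.dim) {z : X.Cycles}
    (hz : X.IsCyc j z) :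
    W.tr X (W.cl X z * ((LinearMap.mulLeft W.K (W.cl X D) ^ (X.dim - 2 * j)) (W.cl X z))) =
      ((X.V.degCycle (ops.mul z (divPow ops D (X.dim - 2 * j) z)) : ℚ) : W.K) := by
  have e1 := ops.mul_mem hz (divPow_mem (ops := ops) hD (X.dim - 2 * j) hz)
  rw [show j + (j + (X.dim - 2 * j)) = X.dim by omega] at e1
  rw [← W.tr_cl e1, W.cl_mul, cl_divPow]

/-- The algebraic classes. -/
theorem semiPart (hD : X.IsCyc 1 D) (hA : LefschetzA W X D) (hH : NHp W X D) :
    SemiPart (W.gr X) X.dim (LinearMap.mulLeft W.K (W.cl X D)) (bil W X) (algClasses W X)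
      (NT W X) where
  sub := fun l c hc => alg_gr hc
  zero := fun l => alg_zero l
  add := fun l c hc d hd => alg_add hc hd
  smul := fun l q c hc => alg_smul q hc
  map_L := fun l c hc => by
    rw [add_comm l 1]
    exact alg_mul ⟨D, hD, rfl⟩ hc
  hl := by
    rintro l hl _ ⟨z, hz, rfl⟩
    obtain ⟨z', h1, h2⟩ := hA l hl z hz
    refine ⟨_, ⟨z', h1, rfl⟩, ?_⟩
    rw [← cl_divPow]
    exact h2
  pos := by
    rintro l hl _ ⟨z, hz, rfl⟩ hp
    have hd := cl_deg (W := W) hD hl hz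
    by_cases h0 : NT W X (W.cl X z)
    · refine ⟨0, ?_, by simp, fun h => absurd h0 h⟩
      rw [bil_apply, Rat.cast_zero]
      refine nt_iff.1 h0 _ ?_
      rw [← cl_divPow]
      exact AS.of ⟨_, divPow_mem (ops := ops) hD _ hz, rfl⟩
    · have h1 := hH l hl z hz (by rw [cl_divPow]; exact hp) h0
      exact ⟨_, by rw [bil_apply]; exact hd, h1.le, fun _ => h1⟩
  self a b := by
    rw [bil_apply, bil_apply, LinearMap.mulLeft_apply, LinearMap.mulLeft_apply,
      W.even_comm (p := 1) (W.cl_mem hD) a, mul_assoc]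
  N0 := nt_zero
  Nadd := fun a b ha hb => ha.add hb
  NL := fun a ha => ha.mul' (AS.of ⟨D, hD, rfl⟩)

/-- **Semipositivity of the form.** -/
theorem bf_semi (F : Lw W X D f) (hf : IsHom (W.gr X) (-2) f) (hA : LefschetzA W X D)
    (hH : NHp W X D) {x : W.H X} (hx : AS W X x) :
    ∃ q : ℚ, 0 ≤ q ∧ (¬ NT W X x → 0 < q) ∧ bf W X D f x x = q := by
  classical
  have hC := semiPart F.hD hA hH
  have t := F.sl2
  set L : Module.End W.K (W.H X) := LinearMap.mulLeft W.K (W.cl X D) with hL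
  have hw1 : wey L f * L = -(f * wey L f) := wey_e t
  have hw3 : ∀ (m : ℕ) (v : W.H X), f v = 0 → wt (W.isInternal X) X.dim v = -(m : W.K) • v →
      wey L f v = ((m.factorial : W.K)⁻¹) • (L ^ m) v := fun m v hv hm => wey_lowest t hv hm
  have hHw : ∀ i, ∀ a ∈ W.gr X i, wt (W.isInternal X) X.dim a = ((i : W.K) - X.dim) • a :=
    fun i a ha => Fr.wt_gr ha
  have hlow : ∀ i ≤ X.dim, ∀ a ∈ W.gr X i, (L ^ (X.dim - i + 1)) a = 0 → f a = 0 := by
    intro i hi a ha h0
    refine t.f_eq_zero (M := X.dim - i) ?_ h0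
    rw [hHw i a ha, Nat.cast_sub hi]
    congr 1
    ring
  have key : ∀ j, ∃ q : ℚ, 0 ≤ q ∧ (¬ NT W X (proj (W.isInternal X) (2 * j) x) → 0 < q) ∧
      bf W X D f (proj (W.isInternal X) (2 * j) x) (proj (W.isInternal X) (2 * j) x) = q := by
    intro j
    have h1 : proj (W.isInternal X) (2 * j) x ∈ algClasses W X j := hx.proj j
    obtain ⟨s, hs, hs', hs''⟩ := hC.weyl_semi t hw1 hw3 hlow hHw (mulLeft_isHom F.hD) W_hbd h1
    refine ⟨(-1) ^ j * s, hs', hs'', ?_⟩
    rw [bf_apply, st_apply (alg_gr h1), mul_smul_comm, map_smul, ← bil_apply]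
    rw [hL] at hs
    rw [hs, sg_two_mul, smul_eq_mul]
    push_cast
    rfl
  choose q hq0 hq1 hq2 using key
  refine ⟨∑ j ∈ Finset.range (X.dim + 1), q j, Finset.sum_nonneg fun j _ => hq0 j,
    fun hx0 => ?_, ?_⟩
  · have hex : ∃ j ∈ Finset.range (X.dim + 1),
        ¬ NT W X (proj (W.isInternal X) (2 * j) x) := by
      by_contra h0
      push Not at h0
      apply hx0
      rw [Fr.AS_sum hx]
      exact Finset.sum_induction _ (NT W X) (fun a b ha hb => ha.add hb) nt_zero h0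
    obtain ⟨j, hj, hj0⟩ := hex
    exact Finset.sum_pos' (fun b hb => hq0 b) ⟨j, hj, hq1 j hj0⟩
  · have h1 : bf W X D f x x = bf W X D f
        (∑ j ∈ Finset.range (X.dim + 1), proj (W.isInternal X) (2 * j) x)
        (∑ j ∈ Finset.range (X.dim + 1), proj (W.isInternal X) (2 * j) x) := by
      rw [← Fr.AS_sum hx]
    rw [h1, map_sum (bf W X D f), LinearMap.sum_apply, Rat.cast_sum]
    apply Finset.sum_congr rfl
    intro j hj
    rw [map_sum, Finset.sum_eq_single j, hq2]
    · intro i _ hi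
      exact F.bf_deg (proj_mem _ _ _) (proj_mem _ _ _) (by omega)
    · intro h0; exact absurd hj h0

end form

end Pool.Agent.H621.NF
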