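import Pool.Agent.H621.NF.NT

/-!
# The conjecture of Hodge type modulo numerical equivalence for products
-/

open CategoryTheory AlgebraicGeometry Finset Module

set_option linter.unusedSectionVars false

universe u

namespace Pool.Agent.H621.NF

open Pool.Agent.H621.AF
open Pool.Agent.H914 Pool.Agent.H914.VarClass Pool.Agent.H914.VarClass.Obj
  Pool.Agent.H914.WeilCohomology Pool.Agent.H281R3.HT Pool.Agent.W552 Pool.Agent.TH132.A

variable {k : Type u} [Field k] {𝒱 : VarClass k} {ops : CycleOps 𝒱}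
  {W : WeilCohomology.{u, 0} ops} {X U : 𝒱.Obj} {D : X.Cycles} {B : U.Cycles}
  {f : Module.End W.K (W.H X)} {g : Module.End W.K (W.H U)}

/-- The trace of the product of two products. -/
theorem tr_ext_mul {a x : W.H X} {y y' : W.H U} (hx : AS W X x) :
    W.tr (X.prod U) (H281R3.HT.ext W a y * H281R3.HT.ext W x y') =
      W.tr X (a * x) * W.tr U (y * y') := by
  rw [H281R3.HT.ext, H281R3.HT.ext, mul_assoc, ← mul_assoc (W.map (snd X U) y),
    ← (hx.map (fst X U)).comm (W.map (snd X U) y), mul_assoc (W.map (fst X U) x), ← mul_assoc,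
    ← map_mul, ← map_mul, W.tr_prod]

/-- The product with a numerically trivial class. -/
theorem nt_ext (hS : ∀ z, AS W (X.prod U) z → z ∈ tens W X U) {a : W.H X} {y : W.H U}
    (hy : NT W U y) : NT W (X.prod U) (H281R3.HT.ext W a y) := by
  rw [nt_iff]
  intro w hw
  have h2 := hS w hw
  clear hw
  induction h2 using AddSubmonoid.closure_induction with
  | mem w hw =>
    obtain ⟨x, y', hx, hy', rfl⟩ := hw
    rw [tr_ext_mul hx, nt_iff.1 hy y' hy', mul_zero]
  | zero => rw [mul_zero, map_zero]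
  | add x y _ _ hx hy => rw [mul_add, map_add, hx, hy, add_zero]

/-- The unit of a factor with an algebraic class of nonzero degree. -/
theorem nt_of_one_ext (hX : ∃ a ∈ algClasses W X X.dim, W.tr X a ≠ 0) {y : W.H U}
    (h : NT W (X.prod U) (H281R3.HT.ext W (1 : W.H X) y)) : NT W U y := by
  obtain ⟨τ, hτ, hτ1⟩ := hX
  rw [nt_iff] at h ⊢
  intro e he
  have h1 := h _ ((AS.of hτ).ext he)
  rw [tr_ext_mul (AS.of hτ), one_mul] at h1
  exact (mul_eq_zero.1 h1).resolve_left hτ1

/-- **Positivity modulo numerical equivalence for the second factor implies it for the product.** -/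
theorem nhp_prod_of (hS : ∀ z, AS W (X.prod U) z → z ∈ tens W X U) (tf : Lw W X D f)
    (hfX : IsHom (W.gr X) (-2) f) (hHLX : HardLefschetz W X D) (hf : Stable W X f)
    (hHX : Pool.Agent.H914.HodgeType W X D) (tg : Lw W U B g) (hgU : IsHom (W.gr U) (-2) g)
    (hAU : LefschetzA W U B) (hHU : NHp W U B) :
    NHp W (X.prod U) (ops.pull (fst X U) D + ops.pull (snd X U) B) := by
  intro j hj z hz hprim hz0
  have F := tf.prod tg
  have hzA : AS W (X.prod U) (W.cl _ z) := AS.of ⟨z, hz, rfl⟩
  obtain ⟨N, a, b, w, hab, hw, horth⟩ := exists_orthoFam tf hfX hHLX hf hHX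
  have hrep := hab.rep (tens_le_span (hS _ hzA))
  set y : Fin N → W.H U := fun i => coef W (b i) (W.cl (X.prod U) z) with hy
  have hpos : ∀ i, ∃ q : ℚ, 0 ≤ q ∧ (¬ NT W U (y i) → 0 < q) ∧ bf W U B g (y i) (y i) = q :=
    fun i => bf_semi tg hgU hAU hHU (coef_AS (hab.hb i) hzA)
  choose q hq0 hq1 hq2 using hpos
  have hval : bf W (X.prod U) (ops.pull (fst X U) D + ops.pull (snd X U) B) (extSum W f g)
      (W.cl _ z) (W.cl _ z) = ((∑ i, w i * q i : ℚ) : W.K) := by
    rw [hrep, map_sum]
    push_cast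
    refine Finset.sum_congr rfl fun i _ => ?_
    rw [map_sum, LinearMap.sum_apply, Finset.sum_eq_single i]
    · rw [tf.bf_ext tg, horth, if_pos rfl]
      change _ * bf W U B g (y i) (y i) = _
      rw [hq2]
    · intro l _ hl
      rw [tf.bf_ext tg, horth, if_neg hl, zero_mul]
    · intro h; exact absurd (Finset.mem_univ _) h
  rw [F.form_prim hj hz hprim] at hval
  have hval' := Rat.cast_injective (α := W.K) hval
  have hsum : 0 < ∑ i, w i * q i := by
    have hex : ∃ i, ¬ NT W U (y i) := by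
      by_contra hne
      push Not at hne
      apply hz0
      rw [hrep]
      exact Finset.sum_induction _ (NT W (X.prod U)) (fun a b ha hb => ha.add hb) nt_zero
        fun i _ => nt_ext hS (hne i)
    obtain ⟨i, hi⟩ := hex
    exact Finset.sum_pos' (fun i _ => mul_nonneg (hw i).le (hq0 i))
      ⟨i, Finset.mem_univ _, mul_pos (hw i) (hq1 i hi)⟩
  rw [← hval', mul_left_comm] at hsum
  exact pos_of_mul_pos_right hsum (by positivity)

/-- **Positivity modulo numerical equivalence for the product implies it for the second factor.** -/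
theorem nhp_of_prod (tf : Lw W X D f) (tg : Lw W U B g)
    (hpos : ∃ q : ℚ, 0 < q ∧ bf W X D f 1 1 = q)
    (hX : ∃ a ∈ algClasses W X X.dim, W.tr X a ≠ 0)
    (hH : NHp W (X.prod U) (ops.pull (fst X U) D + ops.pull (snd X U) B)) :
    NHp W U B := by
  intro j hj z hz hprim hz0
  have F := tf.prod tg
  set y := ops.pull (snd X U) z with hy
  have hyc : (X.prod U).IsCyc j y := ops.pull_mem _ hz
  have hycl : W.cl (X.prod U) y = H281R3.HT.ext W (1 : W.H X) (W.cl U z) := by
    rw [hy, W.cl_pull, H281R3.HT.ext, map_one, one_mul]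
  have hj' : 2 * j ≤ (X.prod U).dim := by rw [dim_prod]; omega
  have hDE : W.cl (X.prod U) (ops.pull (fst X U) D + ops.pull (snd X U) B) =
      W.map (fst X U) (W.cl X D) + W.map (snd X U) (W.cl U B) := by
    rw [map_add, W.cl_pull, W.cl_pull]
  have hyp : W.cl (X.prod U) (divPow ops (ops.pull (fst X U) D + ops.pull (snd X U) B)
      ((X.prod U).dim - 2 * j + 1) y) = 0 := by
    rw [cl_divPow, hycl, theta_pow tg.hD hDE]
    refine Finset.sum_eq_zero fun i hi => ?_
    have hi' := Finset.mem_range.1 hi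
    rw [dim_prod] at hi' ⊢
    by_cases h2 : X.dim < i
    · rw [e_pow_zero (W := W) tf.hD (i := 0) (by omega) (W.one_mem X)]
      simp [H281R3.HT.ext]
    · rw [show X.dim + U.dim - 2 * j + 1 - i = (X.dim - i) + (U.dim - 2 * j + 1) by omega,
        pow_add, Module.End.mul_apply, ← cl_divPow, hprim, map_zero]
      simp [H281R3.HT.ext]
  have hy0 : ¬ NT W (X.prod U) (W.cl (X.prod U) y) := by
    rw [hycl]
    exact fun h0 => hz0 (nt_of_one_ext hX h0)
  obtain ⟨q, hq, hq'⟩ := hpos
  have h2 := F.form_prim hj' hyc hyp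
  have h3 := hH j hj' y hyc hyp hy0
  rw [hycl, tf.bf_ext tg, hq', tg.form_prim hj hz hprim, ← Rat.cast_mul] at h2
  have h4 := Rat.cast_injective (α := W.K) h2
  have h5 : 0 < q * ((-1) ^ j * (((U.dim - 2 * j).factorial : ℚ)⁻¹ *
        U.V.degCycle (ops.mul z (divPow ops B (U.dim - 2 * j) z)))) := by
    rw [h4, mul_left_comm]
    exact mul_pos (by positivity) h3
  have h6 := pos_of_mul_pos_right h5 hq.le
  rw [mul_left_comm] at h6
  exact pos_of_mul_pos_right h6 (by positivity)

/-- Under the conjecture A the positivity on the classes which are primitive modulo numerical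
equivalence is the positivity on the primitive classes. -/
theorem numHodge_iff {X : 𝒱.Obj} {D : X.Cycles} (hD : X.IsCyc 1 D) (hA : LefschetzA W X D) :
    NumHodgeElt (W.tr X) (algClasses W X) X.dim (W.cl X D) ↔ NHp W X D := by
  have hpow : ∀ i z, W.cl X (divPow ops D i z) = (W.cl X D) ^ i * W.cl X z := fun i z => by
    rw [cl_divPow, LinearMap.pow_mulLeft, LinearMap.mulLeft_apply]
  have hdeg : ∀ j, 2 * j ≤ X.dim → ∀ z, X.IsCyc j z →
      W.tr X (W.cl X z * ((W.cl X D) ^ (X.dim - 2 * j) * W.cl X z)) =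
        ((X.V.degCycle (ops.mul z (divPow ops D (X.dim - 2 * j) z)) : ℚ) : W.K) := by
    intro j hj z hz
    have h1 := cl_deg (W := W) hD hj hz
    rwa [LinearMap.pow_mulLeft, LinearMap.mulLeft_apply] at h1
  have hone : ∀ j : ℕ, ((-1 : ℚ) ^ j) * (-1) ^ j = 1 := fun j => by
    rw [← mul_pow]
    simp
  have hDA : AS W X (W.cl X D) := AS.of ⟨D, hD, rfl⟩
  have hDp : ∀ i, AS W X (W.cl X D ^ i) := by
    intro i
    induction i with
    | zero => rw [pow_zero]; exact AS.one
    | succ i ih => rw [pow_succ]; exact ih.mul hDA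
  have hA' := (lefElt_iff X D).2 hA
  constructor
  · intro h j hj z hz h0 hz0
    obtain ⟨q, hq, h1⟩ := h j hj _ ⟨z, hz, rfl⟩ (by rw [← hpow, h0]; exact nt_zero) hz0
    rw [hdeg j hj z hz] at h1
    have h2 : (X.V.degCycle (ops.mul z (divPow ops D (X.dim - 2 * j) z)) : ℚ) = (-1) ^ j * q := by
      apply Rat.cast_injective (α := W.K)
      rw [h1]
      push_cast
      ring
    rw [h2, ← mul_assoc, hone, one_mul]
    exact hq
  · intro h j hj c hc h0 hz0
    -- a primitive representative
    obtain ⟨c', hc', h1, h2⟩ : ∃ c' ∈ algClasses W X j,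
        W.cl X D ^ (X.dim - 2 * j + 1) * c' = 0 ∧ NT W X (c - c') := by
      cases j with
      | zero =>
        refine ⟨c, hc, ?_, by rw [sub_self]; exact nt_zero⟩
        have h3 := e_pow_zero (W := W) hD (m := X.dim - 2 * 0 + 1) (i := 2 * 0) (by omega)
          (alg_gr hc)
        rwa [LinearMap.pow_mulLeft, LinearMap.mulLeft_apply] at h3
      | succ j =>
        obtain ⟨c₁, hc₁⟩ : ∃ c₁, c₁ = W.cl X D ^ (X.dim - 2 * (j + 1) + 1) * c := ⟨_, rfl⟩
        have hc₁m : c₁ ∈ algClasses W X (X.dim - j) := by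
          have h3 := ((hDp (X.dim - 2 * (j + 1) + 1)).mul (AS.of hc))
          rw [← hc₁] at h3
          refine h3.alg ?_
          have h4 := pow_L_mem (mulLeft_isHom (W := W) hD) (alg_gr hc)
            (X.dim - 2 * (j + 1) + 1)
          rw [LinearMap.pow_mulLeft, LinearMap.mulLeft_apply, ← hc₁] at h4
          rwa [show 2 * (j + 1) + 2 * (X.dim - 2 * (j + 1) + 1) = 2 * (X.dim - j) by omega] at h4
        obtain ⟨y, hy, hy1⟩ := hA' j (by omega) c₁ hc₁m
        have hyN : NT W X y := by
          intro i e he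
          by_cases hi : i = X.dim - j
          · subst hi
            obtain ⟨e', he', rfl⟩ := hA' j (by omega) e he
            rw [← mul_assoc, ← (hDp _).comm y, hy1, hc₁]
            exact h0 j e' he'
          · exact W.tr_eq_zero (W.mul_mem (alg_gr hy) (alg_gr he)) (by omega)
        have hDy : W.cl X D * y ∈ algClasses W X (j + 1) := by
          rw [add_comm j 1]
          exact alg_mul ⟨D, hD, rfl⟩ hy
        refine ⟨c - W.cl X D * y, ?_, ?_, ?_⟩
        · have h3 := alg_add hc (alg_smul (-1) hDy)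
          rwa [Rat.cast_neg, Rat.cast_one, neg_one_smul, ← sub_eq_add_neg] at h3
        · rw [mul_sub, ← hc₁, ← hy1, ← mul_assoc, ← pow_succ,
            show X.dim - 2 * (j + 1) + 1 + 1 = X.dim - 2 * j by omega, sub_self]
        · rw [sub_sub_cancel]
          exact hyN.mul' hDA
    obtain ⟨z', hz', rfl⟩ := hc'
    have h3 := h j hj z' hz' (by rw [hpow, h1]) (fun h4 => hz0 (by
      have h5 := h4.add h2
      rwa [add_sub_cancel] at h5))
    refine ⟨_, h3, ?_⟩
    obtain ⟨δ, hδ⟩ : ∃ δ, δ = c - W.cl X z' := ⟨_, rfl⟩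
    rw [← hδ] at h2
    have hcδ : c = W.cl X z' + δ := by rw [hδ, add_sub_cancel]
    have hzA : AS W X (W.cl X z') := AS.of ⟨z', hz', rfl⟩
    have h5 : W.tr X (c * (W.cl X D ^ (X.dim - 2 * j) * c)) =
        W.tr X (W.cl X z' * (W.cl X D ^ (X.dim - 2 * j) * W.cl X z')) := by
      have e1 : W.tr X (δ * (W.cl X D ^ (X.dim - 2 * j) * c)) = 0 :=
        nt_iff.1 h2 _ ((hDp _).mul (AS.of hc))
      have e2 : W.tr X (W.cl X z' * (W.cl X D ^ (X.dim - 2 * j) * δ)) = 0 := by
        rw [← mul_assoc, (hzA.mul (hDp _)).comm δ]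
        exact nt_iff.1 h2 _ (hzA.mul (hDp _))
      have e3 : c * (W.cl X D ^ (X.dim - 2 * j) * c) =
          W.cl X z' * (W.cl X D ^ (X.dim - 2 * j) * W.cl X z') +
            W.cl X z' * (W.cl X D ^ (X.dim - 2 * j) * δ) +
            δ * (W.cl X D ^ (X.dim - 2 * j) * c) := by
        rw [← mul_add, ← mul_add, ← hcδ, ← add_mul, ← hcδ]
      rw [e3, map_add, map_add, e1, e2, add_zero, add_zero]
    rw [h5, hdeg j hj z' hz']
    have h4 : ((-1 : W.K) ^ j) * (-1) ^ j = 1 := by
      rw [← mul_pow]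
      simp
    push_cast
    rw [← mul_assoc, h4, one_mul]

end Pool.Agent.H621.NF
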