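import Pool.Agent.H914R2.APart

/-!
# Rational Lefschetz structures with semidefinite Hodge-Riemann relations
-/

open Finset

namespace Pool.Agent.H621.NF

open Pool.Agent.H914

variable {K : Type*} [Field K] [CharZero K] {V : Type*} [AddCommGroup V] [Module K V]

/-- The classes `C l` of codimension `l` form a rational Lefschetz structure satisfying the
Hodge-Riemann relations modulo the classes with the property `N`. -/
structure SemiPart (gr : ℕ → Submodule K V) (n : ℕ) (L : Module.End K V)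
    (B : V →ₗ[K] V →ₗ[K] K) (C : ℕ → Set V) (N : V → Prop) : Prop where
  sub : ∀ l, ∀ c ∈ C l, c ∈ gr (2 * l)
  zero : ∀ l, (0 : V) ∈ C l
  add : ∀ l, ∀ c ∈ C l, ∀ d ∈ C l, c + d ∈ C l
  smul : ∀ l, ∀ q : ℚ, ∀ c ∈ C l, (q : K) • c ∈ C l
  map_L : ∀ l, ∀ c ∈ C l, L c ∈ C (l + 1)
  hl : ∀ l, 2 * l ≤ n → ∀ c ∈ C (n - l), ∃ c' ∈ C l, (L ^ (n - 2 * l)) c' = c
  pos : ∀ l, 2 * l ≤ n → ∀ c ∈ C l, (L ^ (n - 2 * l + 1)) c = 0 →
    ∃ s : ℚ, B c ((L ^ (n - 2 * l)) c) = s ∧ 0 ≤ (-1) ^ l * s ∧ (¬ N c → 0 < (-1) ^ l * s)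
  self : ∀ a b, B (L a) b = B a (L b)
  N0 : N 0
  Nadd : ∀ a b, N a → N b → N (a + b)
  NL : ∀ a, N a → N (L a)

namespace SemiPart

variable {gr : ℕ → Submodule K V} {n : ℕ} {L : Module.End K V}
  {B : V →ₗ[K] V →ₗ[K] K} {C : ℕ → Set V} {N : V → Prop} (hC : SemiPart gr n L B C N)

include hC

lemma map_L_pow (k : ℕ) {l : ℕ} {c : V} (hc : c ∈ C l) : (L ^ k) c ∈ C (l + k) := by
  induction k with
  | zero => simpa using hc
  | succ k ih =>
    rw [pow_succ', Module.End.mul_apply, ← add_assoc]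
    exact hC.map_L _ _ ih

lemma self_pow (k : ℕ) (a b : V) : B ((L ^ k) a) b = B a ((L ^ k) b) := by
  induction k generalizing a b with
  | zero => simp
  | succ k ih =>
    rw [pow_succ, Module.End.mul_apply, ih, hC.self, ← Module.End.mul_apply L, ← pow_succ',
      ← pow_succ]

lemma sum_mem {ι : Type*} (s : Finset ι) {l : ℕ} {x : ι → V} (hx : ∀ i ∈ s, x i ∈ C l) :
    ∑ i ∈ s, x i ∈ C l := by
  classical
  induction s using Finset.induction_on with
  | empty => simpa using hC.zero l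
  | insert a s ha ih =>
    rw [Finset.sum_insert ha]
    exact hC.add _ _ (hx a (by simp)) _ (ih (fun i hi => hx i (by simp [hi])))

/-- The classes of codimension larger than `n` vanish. -/
lemma eq_zero_of_gt (hbd : ∀ i, 2 * n + 1 ≤ i → gr i = ⊥) {l : ℕ} (hl : n < l) {c : V}
    (hc : c ∈ C l) : c = 0 := by
  have := hC.sub l c hc
  rw [hbd _ (by omega)] at this
  exact (Submodule.mem_bot _).1 this

/-- Primitive decomposition, in codimension at most `n / 2`. -/
lemma decomp_low (hL : IsHom gr 2 L) (hbd : ∀ i, 2 * n + 1 ≤ i → gr i = ⊥) :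
    ∀ l, 2 * l ≤ n → ∀ c ∈ C l, ∃ u : ℕ → V, (∀ b ≤ l, u b ∈ C (l - b) ∧
      (L ^ (n - 2 * (l - b) + 1)) (u b) = 0) ∧ c = ∑ b ∈ range (l + 1), (L ^ b) (u b) := by
  intro l
  induction l with
  | zero =>
    intro _ c hc
    refine ⟨fun _ => c, fun b hb => ?_, by simp⟩
    have : b = 0 := by omega
    subst this
    refine ⟨hc, ?_⟩
    have h1 := pow_L_mem hL (hC.sub 0 c hc) (n + 1)
    rw [hbd _ (by omega)] at h1
    simpa using (Submodule.mem_bot _).1 h1
  | succ l ih =>
    intro hl c hc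
    have h1 : (L ^ (n - 2 * (l + 1) + 1)) c ∈ C (n - l) := by
      have := hC.map_L_pow (n - 2 * (l + 1) + 1) hc
      rwa [show l + 1 + (n - 2 * (l + 1) + 1) = n - l by omega] at this
    obtain ⟨c', hc', h2⟩ := hC.hl l (by omega) _ h1
    obtain ⟨u, hu, hsum⟩ := ih (by omega) c' hc'
    refine ⟨fun b => if b = 0 then c - L c' else u (b - 1), ?_, ?_⟩
    · intro b hb
      beta_reduce
      rcases Nat.eq_zero_or_pos b with rfl | h0
      · rw [if_pos rfl, Nat.sub_zero]
        constructor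
        · have h3 := hC.smul _ (-1) _ (hC.map_L _ _ hc')
          have h4 := hC.add _ _ hc _ h3
          simpa [sub_eq_add_neg] using h4
        · rw [map_sub, ← h2, sub_eq_zero, ← Module.End.mul_apply, ← pow_succ]
          congr 2
          omega
      · rw [if_neg (by omega)]
        have h3 := hu (b - 1) (by omega)
        rw [show l - (b - 1) = l + 1 - b by omega] at h3
        exact h3
    · rw [Finset.sum_range_succ']
      simp only [Nat.add_eq_zero_iff, one_ne_zero, and_false, if_false, Nat.add_sub_cancel,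
        pow_zero, Module.End.one_apply, if_true]
      have h3 : ∑ b ∈ range (l + 1), (L ^ (b + 1)) (u b) = L c' := by
        rw [hsum, map_sum]
        apply Finset.sum_congr rfl
        intro b _
        rw [pow_succ', Module.End.mul_apply]
      rw [h3]
      abel

/-- Primitive decomposition. -/
lemma decomp (hL : IsHom gr 2 L) (hbd : ∀ i, 2 * n + 1 ≤ i → gr i = ⊥) {l : ℕ} {c : V}
    (hc : c ∈ C l) : ∃ u : ℕ → V, (∀ b ≤ l, u b ∈ C (l - b) ∧
      (u b ≠ 0 → 2 * (l - b) ≤ n) ∧ (L ^ (n - 2 * (l - b) + 1)) (u b) = 0) ∧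
      c = ∑ b ∈ range (l + 1), (L ^ b) (u b) := by
  by_cases h1 : 2 * l ≤ n
  · obtain ⟨u, hu, hs⟩ := hC.decomp_low hL hbd l h1 c hc
    exact ⟨u, fun b hb => ⟨(hu b hb).1, fun _ => by omega, (hu b hb).2⟩, hs⟩
  · by_cases h2 : l ≤ n
    · obtain ⟨c', hc', hcc⟩ := hC.hl (n - l) (by omega) c
        (by rw [show n - (n - l) = l by omega]; exact hc)
      obtain ⟨u, hu, hs⟩ := hC.decomp_low hL hbd (n - l) (by omega) c' hc'
      refine ⟨fun b => if n - 2 * (n - l) ≤ b then u (b - (n - 2 * (n - l))) else 0, ?_, ?_⟩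
      · intro b hb
        beta_reduce
        by_cases hb2 : n - 2 * (n - l) ≤ b
        · rw [if_pos hb2]
          have h3 := hu (b - (n - 2 * (n - l))) (by omega)
          rw [show n - l - (b - (n - 2 * (n - l))) = l - b by omega] at h3
          exact ⟨h3.1, fun _ => by omega, h3.2⟩
        · rw [if_neg hb2]
          exact ⟨hC.zero _, fun h => absurd rfl h, map_zero _⟩
      · rw [← hcc, hs, map_sum]
        symm
        rw [← Finset.sum_subset (s₁ := (range (n - l + 1)).image (fun b => b + (n - 2 * (n - l))))]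
        · rw [Finset.sum_image (by intro a _ b _ h; simpa using h)]
          apply Finset.sum_congr rfl
          intro b _
          beta_reduce
          rw [if_pos (by omega), Nat.add_sub_cancel, ← Module.End.mul_apply, ← pow_add]
          congr 2
          omega
        · intro b hb
          rw [Finset.mem_image] at hb
          obtain ⟨a, ha, rfl⟩ := hb
          rw [Finset.mem_range] at ha ⊢
          omega
        · intro b hb hb'
          beta_reduce
          rw [if_neg, map_zero]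
          intro h3
          apply hb'
          rw [Finset.mem_range] at hb
          exact Finset.mem_image.2 ⟨b - (n - 2 * (n - l)), Finset.mem_range.2 (by omega), by omega⟩
    · have h0 := hC.eq_zero_of_gt hbd (by omega) hc
      refine ⟨fun _ => 0, fun b _ => ⟨hC.zero _, fun h => absurd rfl h, map_zero _⟩, ?_⟩
      rw [h0]
      simp

section Weyl

variable {H Lam w : Module.End K V} (t : Sl2 H L Lam) (hw1 : w * L = -(Lam * w))
  (hw3 : ∀ (m : ℕ) (v : V), Lam v = 0 → H v = -(m : K) • v →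
      w v = ((m.factorial : K)⁻¹) • (L ^ m) v)
  (hlow : ∀ i ≤ n, ∀ a ∈ gr i, (L ^ (n - i + 1)) a = 0 → Lam a = 0)
  (hH : ∀ i, ∀ a ∈ gr i, H a = ((i : K) - n) • a)

include t hw1 hw3 hlow hH

/-- The Weyl operator on `L ^ b u`, `u` primitive algebraic. -/
lemma weyl_L_pow {l : ℕ} (hl : 2 * l ≤ n) {u : V} (hu : u ∈ C l)
    (hp : (L ^ (n - 2 * l + 1)) u = 0) {b : ℕ} (hb : b ≤ n - 2 * l) :
    w ((L ^ b) u) = ((-1 : K) ^ b * (b.factorial * ((n - 2 * l - b).factorial : K)⁻¹)) •
      (L ^ (n - 2 * l - b)) u := by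
  have h1 : Lam u = 0 := hlow (2 * l) hl u (hC.sub l u hu) hp
  have h2 : H u = -((n - 2 * l : ℕ) : K) • u := by
    rw [hH _ _ (hC.sub l u hu), Nat.cast_sub hl]
    congr 1
    push_cast; ring
  by_cases hu0 : u = 0
  · rw [hu0]; simp
  exact weyl_str (G := 0) (α := 0) t hw1 hw3 ⟨hu0, h1, h2, by simp⟩ hb

omit t hw1 hw3 hlow hH in
lemma cross_zero {l b b' : ℕ} (hb : b ≤ l) (hb' : b' ≤ l) (hne : b ≠ b') {u u' : V}
    (hl : 2 * (l - b) ≤ n) (hl' : 2 * (l - b') ≤ n)
    (hp : (L ^ (n - 2 * (l - b) + 1)) u = 0) (hp' : (L ^ (n - 2 * (l - b') + 1)) u' = 0)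
    (hbb : b' ≤ n - 2 * (l - b')) :
    B ((L ^ b) u) ((L ^ (n - 2 * (l - b') - b')) u') = 0 := by
  rcases lt_or_gt_of_ne hne with h | h
  · rw [← hC.self_pow, ← Module.End.mul_apply, ← pow_add,
      L_pow_gt (n := n) (i := 2 * (l - b)) hp (by omega), map_zero, LinearMap.zero_apply]
  · rw [hC.self_pow, ← Module.End.mul_apply, ← pow_add,
      L_pow_gt (n := n) (i := 2 * (l - b')) hp' (by omega), map_zero]

omit t hw1 hw3 hlow hH in
lemma N_pow (b : ℕ) {a : V} (ha : N a) : N ((L ^ b) a) := by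
  induction b with
  | zero => simpa using ha
  | succ b ih => rw [pow_succ', Module.End.mul_apply]; exact hC.NL _ ih

/-- **Semipositivity of the Weyl form.** -/
lemma weyl_semi (hL : IsHom gr 2 L) (hbd : ∀ i, 2 * n + 1 ≤ i → gr i = ⊥) {l : ℕ} {c : V}
    (hc : c ∈ C l) : ∃ s : ℚ, B c (w c) = s ∧ 0 ≤ (-1) ^ l * s ∧ (¬ N c → 0 < (-1) ^ l * s) := by
  obtain ⟨u, hu, hs⟩ := hC.decomp hL hbd hc
  have key : ∀ b ∈ range (l + 1), ∃ s : ℚ, B ((L ^ b) (u b)) (w ((L ^ b) (u b))) = s ∧
      0 ≤ (-1) ^ l * s ∧ (¬ N ((L ^ b) (u b)) → 0 < (-1) ^ l * s) := by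
    intro b hb
    rw [Finset.mem_range] at hb
    obtain ⟨h1, h2, h3⟩ := hu b (by omega)
    by_cases h0 : (L ^ b) (u b) = 0
    · exact ⟨0, by rw [h0]; simp, by simp, fun h => absurd (h0 ▸ hC.N0) h⟩
    · have hu0 : u b ≠ 0 := by rintro h; apply h0; rw [h, map_zero]
      have h4 := h2 hu0
      have h5 : b ≤ n - 2 * (l - b) := by
        by_contra h6
        exact h0 (L_pow_gt (n := n) (i := 2 * (l - b)) h3 (by omega))
      obtain ⟨s, hs1, hs2, hs3⟩ := hC.pos (l - b) h4 (u b) h1 h3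
      have h6 : B ((L ^ b) (u b)) (w ((L ^ b) (u b))) =
          (((-1) ^ b * (b.factorial * ((n - 2 * (l - b) - b).factorial : ℚ)⁻¹) * s : ℚ) : K) := by
        rw [hC.weyl_L_pow t hw1 hw3 hlow hH h4 h1 h3 h5, map_smul, smul_eq_mul, hC.self_pow,
          ← Module.End.mul_apply, ← pow_add, show b + (n - 2 * (l - b) - b) = n - 2 * (l - b) by
            omega, hs1]
        push_cast; rfl
      have h7 : (-1 : ℚ) ^ l = (-1) ^ (l - b) * (-1) ^ b := by
        rw [← pow_add]; congr 1; omega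
      have h10 : (-1 : ℚ) ^ l * ((-1) ^ b *
          (b.factorial * ((n - 2 * (l - b) - b).factorial : ℚ)⁻¹) * s) =
          (b.factorial * ((n - 2 * (l - b) - b).factorial : ℚ)⁻¹) * ((-1) ^ (l - b) * s) := by
        have h9 : (-1 : ℚ) ^ b * (-1) ^ b = 1 := by rw [← mul_pow]; simp
        rw [h7]
        linear_combination ((-1 : ℚ) ^ (l - b) *
          (b.factorial * ((n - 2 * (l - b) - b).factorial : ℚ)⁻¹) * s) * h9
      have h11 : (0 : ℚ) < b.factorial * ((n - 2 * (l - b) - b).factorial : ℚ)⁻¹ := by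
        positivity
      refine ⟨_, h6, ?_, fun hN => ?_⟩
      · rw [h10]
        exact mul_nonneg h11.le hs2
      · rw [h10]
        exact mul_pos h11 (hs3 fun h => hN (hC.N_pow b h))
  choose! s hs1 hs2 hs3 using key
  have hcross : ∀ b ∈ range (l + 1), ∀ b' ∈ range (l + 1), b ≠ b' →
      B ((L ^ b) (u b)) (w ((L ^ b') (u b'))) = 0 := by
    intro b hb b' hb' hne
    rw [Finset.mem_range] at hb hb'
    obtain ⟨h1, h2, h3⟩ := hu b (by omega)
    obtain ⟨h1', h2', h3'⟩ := hu b' (by omega)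
    by_cases h0 : (L ^ b) (u b) = 0
    · rw [h0, map_zero, LinearMap.zero_apply]
    by_cases h0' : (L ^ b') (u b') = 0
    · rw [h0', map_zero, map_zero]
    have hu0 : u b ≠ 0 := by rintro h; apply h0; rw [h, map_zero]
    have hu0' : u b' ≠ 0 := by rintro h; apply h0'; rw [h, map_zero]
    have h5 : b' ≤ n - 2 * (l - b') := by
      by_contra h6
      exact h0' (L_pow_gt (n := n) (i := 2 * (l - b')) h3' (by omega))
    rw [hC.weyl_L_pow t hw1 hw3 hlow hH (h2' hu0') h1' h3' h5, map_smul,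
      hC.cross_zero (by omega) (by omega) hne (h2 hu0) (h2' hu0') h3 h3' h5, smul_zero]
  have hsum : B c (w c) = ((∑ b ∈ range (l + 1), s b : ℚ) : K) := by
    have e1 : B c (w c) = ∑ b ∈ range (l + 1), ∑ b' ∈ range (l + 1),
        B ((L ^ b) (u b)) (w ((L ^ b') (u b'))) := by
      rw [hs, map_sum, map_sum, LinearMap.sum_apply]
      apply Finset.sum_congr rfl
      intro b _
      rw [map_sum]
    rw [e1]
    push_cast
    apply Finset.sum_congr rfl
    intro b hb
    rw [Finset.sum_eq_single b]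
    · exact hs1 b hb
    · intro b' hb' hne; exact hcross b hb b' hb' (Ne.symm hne)
    · intro h; exact absurd hb h
  refine ⟨_, hsum, ?_, fun hN => ?_⟩
  · rw [Finset.mul_sum]
    exact Finset.sum_nonneg fun b hb => hs2 b hb
  · rw [Finset.mul_sum]
    have hex : ∃ b ∈ range (l + 1), ¬ N ((L ^ b) (u b)) := by
      by_contra h0
      push Not at h0
      apply hN
      rw [hs]
      exact Finset.sum_induction _ N (fun a b => hC.Nadd a b) hC.N0 h0
    obtain ⟨b, hb, hb0⟩ := hex
    exact Finset.sum_pos' (fun b hb => hs2 b hb) ⟨b, hb, hs3 b hb hb0⟩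

end Weyl

end SemiPart

end Pool.Agent.H621.NF
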