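import Pool.Agent.H621.NF.Prd

/-!
# The conjecture of Hodge type modulo numerical equivalence for the products with the members outside
# of the exceptional set
-/

open CategoryTheory AlgebraicGeometry Finset Module

set_option linter.unusedSectionVars false

universe u

namespace Pool.Agent.H621.AF

open Pool.Agent.TH125.Gal Pool.Agent.H621.NF
open Pool.Agent.H914 Pool.Agent.H914.VarClass Pool.Agent.H914.VarClass.Obj
  Pool.Agent.H914.WeilCohomology Pool.Agent.H281R3.HT Pool.Agent.W552 Pool.Agent.TH132.A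

variable {k : Type u} [Field k] {𝒱 : VarClass k} {ops : CycleOps 𝒱}
  {W : WeilCohomology.{u, 0} ops}

section swap

variable {A Z : 𝒱.Obj}

/-- The numerical form of the conjecture does not depend on the order of the factors. -/
theorem numHodge_swap {d : W.H (Z.prod A)}
    (h : NumHodgeElt (W.tr (Z.prod A)) (algClasses W (Z.prod A)) (Z.prod A).dim d) :
    NumHodgeElt (W.tr (A.prod Z)) (algClasses W (A.prod Z)) (A.prod Z).dim
      (W.map (swap A Z) d) := by
  have hdim : (A.prod Z).dim = (Z.prod A).dim := by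
    rw [dim_prod, dim_prod, add_comm]
  rw [hdim]
  intro j hj c hc h0 hc0
  have h1 : ∀ c : W.H (A.prod Z), W.map (swap A Z) (W.map (swap Z A) c) = c :=
    fun c => map_swap_swap c
  have h1' : ∀ c : W.H (Z.prod A), W.map (swap Z A) (W.map (swap A Z) c) = c :=
    fun c => map_swap_swap c
  -- numerically trivial classes
  have hN : ∀ x : W.H (A.prod Z), IsNumTrivial (W.tr (A.prod Z)) (algClasses W (A.prod Z)) x →
      IsNumTrivial (W.tr (Z.prod A)) (algClasses W (Z.prod A)) (W.map (swap Z A) x) := by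
    intro x hx i e he
    have h2 := hx i (W.map (swap A Z) e) (swap_alg he)
    have h3 : W.map (swap A Z) (W.map (swap Z A) x * e) = x * W.map (swap A Z) e := by
      rw [map_mul, h1]
    rw [← tr_swap, h3]
    exact h2
  have hN' : ∀ x : W.H (Z.prod A), IsNumTrivial (W.tr (Z.prod A)) (algClasses W (Z.prod A)) x →
      IsNumTrivial (W.tr (A.prod Z)) (algClasses W (A.prod Z)) (W.map (swap A Z) x) := by
    intro x hx i e he
    have h2 := hx i (W.map (swap Z A) e) (swap_alg he)
    have h3 : W.map (swap Z A) (W.map (swap A Z) x * e) = x * W.map (swap Z A) e := by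
      rw [map_mul, h1']
    rw [← tr_swap, h3]
    exact h2
  obtain ⟨q, hq, h2⟩ := h j hj (W.map (swap Z A) c) (swap_alg hc) (by
    have h4 := hN _ h0
    rwa [map_mul, map_pow, h1'] at h4) (fun h3 => hc0 (by
    have h4 := hN' _ h3
    rwa [h1] at h4))
  refine ⟨q, hq, ?_⟩
  have h3 : W.map (swap A Z) (W.map (swap Z A) c * (d ^ ((Z.prod A).dim - 2 * j) *
      W.map (swap Z A) c)) = c * (W.map (swap A Z) d ^ ((Z.prod A).dim - 2 * j) * c) := by
    rw [map_mul, map_mul, map_pow, h1]
  rw [← h3, tr_swap]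
  exact h2

end swap

section step

variable {X U : 𝒱.Obj} {D : X.Cycles} {B : U.Cycles} {f : Module.End W.K (W.H X)}
  {g : Module.End W.K (W.H U)}

/-- **The numerical form of the conjecture of Hodge type for a product on which the cycles split.** -/
theorem numHodge_step (hS : ClSplit W X U) (hD : X.IsCyc 1 D) (hE : U.IsCyc 1 B)
    (hHX : HardLefschetz W X D) (hHU : HardLefschetz W U B)
    (hX : ∃ a ∈ algClasses W X X.dim, W.tr X a ≠ 0)
    (hU : ∃ a ∈ algClasses W U U.dim, W.tr U a ≠ 0)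
    (hXp : IsPositiveElt (W.tr X) X.dim (W.cl X D))
    (hUp : IsPositiveElt (W.tr U) U.dim (W.cl U B)) (hAX : LefschetzA W X D)
    (hAU : LefschetzA W U B) (hor : HomEqNum W X ∨ HomEqNum W U) :
    NumHodgeElt (W.tr (X.prod U)) (algClasses W (X.prod U)) (X.prod U).dim
        (W.cl _ (ops.pull (fst X U) D + ops.pull (snd X U) B)) ↔
      NumHodgeElt (W.tr U) (algClasses W U) U.dim (W.cl U B) ∧
        NumHodgeElt (W.tr X) (algClasses W X) X.dim (W.cl X D) := by
  obtain ⟨f, tf, hf⟩ := exists_lw hD hHX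
  obtain ⟨g, tg, hg⟩ := exists_lw hE hHU
  have hC : (X.prod U).IsCyc 1 (ops.pull (fst X U) D + ops.pull (snd X U) B) :=
    SmVar.IsCyc.add (ops.pull_mem _ hD) (ops.pull_mem _ hE)
  have hC' : (U.prod X).IsCyc 1 (ops.pull (fst U X) B + ops.pull (snd U X) D) :=
    SmVar.IsCyc.add (ops.pull_mem _ hE) (ops.pull_mem _ hD)
  have hAXU := (lefA_step hS hD hE hHX hHU hX hU).2 ⟨hAU, hAX⟩
  have hS' : ∀ z, AS W (U.prod X) z → z ∈ tens W U X := fun z hz => by
    have h1 := swap_tens (A := U) (Z := X) (tens_of_clSplit hS (hz.map (swap X U)))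
    rwa [map_swap_swap] at h1
  have hAUX := (lefA_step (clSplit_of_tens hS') hE hD hHU hHX hU hX).2 ⟨hAX, hAU⟩
  have hswap : NumHodgeElt (W.tr (X.prod U)) (algClasses W (X.prod U)) (X.prod U).dim
        (W.cl _ (ops.pull (fst X U) D + ops.pull (snd X U) B)) ↔
      NumHodgeElt (W.tr (U.prod X)) (algClasses W (U.prod X)) (U.prod X).dim
        (W.cl _ (ops.pull (fst U X) B + ops.pull (snd U X) D)) := by
    rw [map_add, map_add, W.cl_pull, W.cl_pull, W.cl_pull, W.cl_pull]
    constructor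
    · intro h
      have h2 := numHodge_swap (A := U) (Z := X) h
      rwa [swap_sum] at h2
    · intro h
      have h2 := numHodge_swap (A := X) (Z := U) h
      rwa [swap_sum] at h2
  constructor
  · intro h
    refine ⟨(numHodge_iff hE hAU).2 (nhp_of_prod tf tg ((pos_iff tf).2 hXp) hX
      ((numHodge_iff hC hAXU).1 h)), (numHodge_iff hD hAX).2 (nhp_of_prod tg tf
      ((pos_iff tg).2 hUp) hU ((numHodge_iff hC' hAUX).1 (hswap.1 h)))⟩
  · rintro ⟨hHU', hHX'⟩
    rw [numHodge_iff hE hAU] at hHU'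
    rw [numHodge_iff hD hAX] at hHX'
    rcases hor with hor | hor
    · exact (numHodge_iff hC hAXU).2 (nhp_prod_of (fun z hz => tens_of_clSplit hS hz) tf hf hHX
        (stable_of_lefschetzA hD tf.sl2 hAX) ((nhp_iff_hodge hor).1 hHX') tg hg hAU hHU')
    · exact hswap.2 ((numHodge_iff hC' hAUX).2 (nhp_prod_of hS' tg hg hHU
        (stable_of_lefschetzA hE tg.sl2 hAU) ((nhp_iff_hodge hor).1 hHU') tf hf hAX hHX'))

end step

section twr

variable {Γ : Type} [Group Γ] {χ : Γ →* W.Kˣ} {P : FinRep W.K Γ} {J : Type}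
  {F : J → Set (GVar W Γ)}

/-- **The numerical form of the conjecture of Hodge type for towers.** -/
theorem numHodge_tower [IsAlgClosed W.K] (hF : IndependentFamily χ F) {S : Finset J}
    (hS : ∀ B : Finset J, ∀ i, i ∉ (S : Set J) ∪ B → ¬ LinkedTo χ P F ((S : Set J) ∪ B) i)
    {Z : PVar W Γ} (hZd : RespectsDegrees Z.V) (hZp : HasPoint Z.V)
    (hZ : EigenvaluesFrom χ P F S Z.V) (hcl : ∀ l Y, IsTower F Z.V l Y → RespectsCycles χ Y)
    {l : List (J × PVar W Γ)} {Y : PVar W Γ} (hY : IsSumTower F Z l Y) (hl : ∀ p ∈ l, p.1 ∉ S)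
    (hK : KnownForAllButOne χ Z.V (forget l)) (hZL : Z.IsPolarization)
    (hlL : ∀ p ∈ l, p.2.IsPolarization) (hA : Y.ConjectureA) :
    Y.NumericalHodgeType ↔ Z.NumericalHodgeType ∧ ∀ p ∈ l, p.2.NumericalHodgeType := by
  induction hY with
  | base => simp
  | @step l Y Y' i X hT hi hX hP ih =>
    have hl' : ∀ p ∈ (i, X.V) :: forget l, p.1 ∉ S := by
      intro p hp
      rcases List.mem_cons.1 hp with rfl | hp
      · exact hl (i, X) List.mem_cons_self
      · obtain ⟨q, hq, rfl⟩ := List.mem_map.1 hp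
        exact hl q (List.mem_cons_of_mem _ hq)
    have hi' : ∀ p ∈ forget l, p.1 ≠ i := by
      intro p hp
      obtain ⟨q, hq, rfl⟩ := List.mem_map.1 hp
      exact hi q hq
    -- the conjecture A for the factors
    obtain ⟨-, hA1⟩ := lefA_tower hF hS hZd hZp hZ hcl (IsSumTower.step i X hT hi hX hP) hl hK
      hZL.1 (fun p hp => (hlL p hp).1)
    obtain ⟨hAZ, hAl⟩ := hA1.1 hA
    obtain ⟨-, hA2⟩ := lefA_tower hF hS hZd hZp hZ hcl hT
      (fun p hp => hl p (List.mem_cons_of_mem _ hp)) hK.tail hZL.1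
      (fun p hp => (hlL p (List.mem_cons_of_mem _ hp)).1)
    have hAY : Y.ConjectureA := hA2.2 ⟨hAZ, fun p hp => hAl p (List.mem_cons_of_mem _ hp)⟩
    have hAX : X.ConjectureA := hAl (i, X) List.mem_cons_self
    have ih' := ih (fun p hp => hl p (List.mem_cons_of_mem _ hp)) hK.tail
      (fun p hp => hlL p (List.mem_cons_of_mem _ hp)) hAY
    obtain ⟨⟨hYL, hYpos⟩, -⟩ := hodge_tower hF hS hZd hZp hZ hcl hT
      (fun p hp => hl p (List.mem_cons_of_mem _ hp)) hK.tail hZL
      (fun p hp => hlL p (List.mem_cons_of_mem _ hp))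
    have hspl := clSplit_step hF hS hZd hZp hZ hcl hT.tower hl' hi' hX hP.1 hK
    have hor := known_or hF hS hZd hZp hZ hcl hT.tower
      (fun p hp => hl' p (List.mem_cons_of_mem _ hp)) hi' hK
    obtain ⟨-, -, hYp⟩ := tower_props hF hZd hZ hT.tower
    obtain ⟨hXL, hXpos⟩ := hlL (i, X) List.mem_cons_self
    have hgoal : Y'.NumericalHodgeType ↔ Y.NumericalHodgeType ∧ X.NumericalHodgeType := by
      clear hA hA1
      obtain ⟨⟨YX, υ⟩, c⟩ := Y'
      obtain ⟨⟨h0, h1, h2⟩, h0', hc⟩ := hP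
      change YX = X.V.X.prod Y.V.X at h0
      subst h0
      rw [addPull] at hc
      simp only [eqToHom_refl, Category.id_comp] at hc
      obtain ⟨D, hDc, hD, hDL⟩ := isHard_iff.1 hXL
      obtain ⟨E, hEc, hE, hEL⟩ := isHard_iff.1 hYL
      have hC : W.cl (X.V.X.prod Y.V.X)
          (ops.pull (fst X.V.X Y.V.X) D + ops.pull (snd X.V.X Y.V.X) E) = c := by
        rw [map_add, W.cl_pull, W.cl_pull, hDc, hEc]
        exact hc.symm
      rw [← hDc] at hXpos
      rw [← hEc] at hYpos
      have hAX' : LefschetzA W X.V.X D := (lefElt_iff _ _).1 (by rw [hDc]; exact hAX)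
      have hAY' : LefschetzA W Y.V.X E := (lefElt_iff _ _).1 (by rw [hEc]; exact hAY)
      have h4 := numHodge_step hspl hD hE hDL hEL (hF.point i X.V hX) (hYp hZp) hXpos hYpos
        hAX' hAY' (hor.imp (fun h => conjectureD_iff.1 h.2) (fun h => conjectureD_iff.1 h.2))
      rw [hC, hDc, hEc] at h4
      exact h4
    rw [hgoal, ih', and_assoc]
    refine and_congr_right fun _ => ?_
    constructor
    · rintro ⟨h1, h2⟩ p hp
      rcases List.mem_cons.1 hp with rfl | hp
      · exact h2
      · exact h1 p hp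
    · intro h
      exact ⟨fun p hp => h p (List.mem_cons_of_mem _ hp), h (i, X) List.mem_cons_self⟩

end twr

end Pool.Agent.H621.AF
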